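import Pool.Agent.Lib_helper60.AVM.Defs

/-! # Project AVM, block KM: the Rédei kernel and the matrix -/

set_option autoImplicit false

namespace Pool.Agent.AVM

open Finset Pool.Agent.PQ Pool.Agent.GL

section
variable {k : ℕ} {u : Fin (k + 1) → ℕ}

/-- the primes of `m` -/
def km_s (u : Fin (k + 1) → ℕ) : Finset ℕ := univ.image (fun i : Fin k => u i.castSucc)

theorem km_inj (hg : Good k u) : Function.Injective (fun i : Fin k => u i.castSucc) :=
  hg.1.comp (Fin.castSucc_injective k)

theorem km_mm (hg : Good k u) : mm k u = ∏ p ∈ km_s u, p := by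
  unfold mm km_s
  rw [Finset.prod_image]
  intro i _ j _ h
  exact km_inj hg h

theorem km_sp (hp : ∀ i, (u i).Prime) : ∀ p ∈ km_s u, p.Prime := by
  intro p h
  unfold km_s at h
  obtain ⟨i, -, rfl⟩ := Finset.mem_image.1 h
  exact hp _

theorem km_pf (hp : ∀ i, (u i).Prime) (hg : Good k u) : (mm k u).primeFactors = km_s u := by
  rw [km_mm hg, Nat.primeFactors_prod (km_sp hp)]

theorem km_dvd (hp : ∀ i, (u i).Prime) (hg : Good k u) {p : ℕ} (hpp : p.Prime) (hd : p ∣ mm k u) :
    ∃ i : Fin k, p = u i.castSucc := by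
  rw [km_mm hg] at hd
  obtain ⟨r, hr, hpr⟩ := (Prime.dvd_finsetProd_iff hpp.prime _).1 hd
  have h1 := (Nat.prime_dvd_prime_iff_eq hpp (km_sp hp r hr)).1 hpr
  unfold km_s at hr
  obtain ⟨i, -, hi⟩ := Finset.mem_image.1 hr
  exact ⟨i, by rw [h1, hi]⟩

theorem km_prod : mm k u * qq k u = ∏ i, u i := by
  rw [Fin.prod_univ_castSucc]
  rfl

theorem km_sq (hp : ∀ i, (u i).Prime) (hg : Good k u) : Squarefree (∏ i, u i) := by
  have h1 : Squarefree (∏ i ∈ univ, u i) := by
    apply Finset.squarefree_prod_of_pairwise_isCoprime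
    · intro i _ j _ hij
      rw [Function.onFun, ← Nat.coprime_iff_isRelPrime]
      exact (Nat.coprime_primes (hp i) (hp j)).2 (fun h => hij (hg.1 h))
    · intro i _
      exact (hp i).squarefree
  exact h1

end

theorem good_fam (k : ℕ) (u : Fin (k + 1) → ℕ) (hp : ∀ i, (u i).Prime) (hg : Good k u) :
    Fam (mm k u) (qq k u) ∧ w (mm k u) = k ∧ w (mm k u * qq k u) = k + 1 ∧ mm k u * qq k u = ∏ i, u i := by
  have hw : w (mm k u) = k := by
    unfold w
    rw [km_pf hp hg, km_s, Finset.card_image_of_injective _ (km_inj hg), Finset.card_univ,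
      Fintype.card_fin]
  have hsq := km_sq hp hg
  have hf : Fam (mm k u) (qq k u) := by
    refine ⟨by rw [km_prod]; exact hsq, hp _, hg.2.2.1, by rw [km_prod]; exact hg.2.2.2, ?_⟩
    intro p hpp hd
    obtain ⟨i, rfl⟩ := km_dvd hp hg hpp hd
    exact hg.2.1 i
  refine ⟨hf, hw, ?_, km_prod⟩
  have hcop : Nat.Coprime (mm k u) (qq k u) := Nat.coprime_of_squarefree_mul hf.1
  have h1 : (mm k u * qq k u).primeFactors.card = (mm k u).primeFactors.card + 1 := by
    rw [hcop.primeFactors_mul, Finset.card_union_of_disjoint hcop.disjoint_primeFactors]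
    congr 1
    have : (qq k u).Prime := hp _
    rw [this.primeFactors]
    rfl
  unfold w at hw ⊢
  rw [h1, hw]

/-! ### bits -/

theorem km_bit_mul {a b : ℤ} {p : ℕ} (ha : Int.gcd a p = 1) (hb : Int.gcd b p = 1) :
    bit (a * b) p = bit a p + bit b p := by
  unfold bit
  rw [jacobiSym.mul_left]
  rcases jacobiSym.eq_one_or_neg_one ha with h1 | h1 <;>
    rcases jacobiSym.eq_one_or_neg_one hb with h2 | h2 <;> rw [h1, h2] <;> decide

theorem km_bit_one (p : ℕ) : bit 1 p = 0 := by
  unfold bit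
  rw [jacobiSym.one_left, if_pos rfl]

theorem km_bit_zero {a : ℤ} {p : ℕ} : bit a p = 0 ↔ jacobiSym a p = 1 := by
  unfold bit
  constructor
  · intro h
    by_contra h'
    rw [if_neg h'] at h
    exact absurd h (by decide)
  · intro h
    rw [if_pos h]

theorem km_bit_prod {ι : Type} (s : Finset ι) (f : ι → ℕ) (p : ℕ) (hf : ∀ i ∈ s, Nat.Coprime (f i) p) :
    bit ((∏ i ∈ s, f i : ℕ) : ℤ) p = ∑ i ∈ s, bit (f i) p := by
  classical
  induction s using Finset.induction_on with
  | empty => simp [km_bit_one]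
  | insert a s ha ih =>
    rw [Finset.prod_insert ha, Finset.sum_insert ha, Nat.cast_mul, km_bit_mul, ih]
    · exact fun i hi => hf i (Finset.mem_insert_of_mem hi)
    · rw [Int.gcd_natCast_natCast]
      exact hf a (Finset.mem_insert_self a s)
    · rw [Int.gcd_natCast_natCast]
      exact Nat.Coprime.prod_left fun i hi => hf i (Finset.mem_insert_of_mem hi)

section
variable {k : ℕ} {u : Fin (k + 1) → ℕ}

theorem km_cop (hp : ∀ i, (u i).Prime) (hg : Good k u) {i j : Fin (k + 1)} (h : i ≠ j) :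
    Nat.Coprime (u i) (u j) := (Nat.coprime_primes (hp i) (hp j)).2 (fun h' => h (hg.1 h'))

theorem km_copc (hp : ∀ i, (u i).Prime) (hg : Good k u) {i j : Fin k} (h : i ≠ j) :
    Nat.Coprime (u i.castSucc) (u j.castSucc) :=
  km_cop hp hg (fun h' => h (Fin.castSucc_injective k h'))

theorem km_copq (hp : ∀ i, (u i).Prime) (hg : Good k u) (j : Fin k) :
    Nat.Coprime (qq k u) (u j.castSucc) :=
  km_cop hp hg (Fin.castSucc_lt_last j).ne'

/-- the support of a vector -/
def km_S (x : Fin k → ZMod 2) : Finset (Fin k) := univ.filter (fun i => x i = 1)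

theorem km_memS {x : Fin k → ZMod 2} {i : Fin k} : i ∈ km_S x ↔ x i = 1 := by
  simp [km_S]

theorem km_notS {x : Fin k → ZMod 2} {i : Fin k} : i ∉ km_S x ↔ x i = 0 := by
  rw [km_memS]
  generalize x i = t
  revert t
  decide

/-- the divisor of a vector -/
def km_D (u : Fin (k + 1) → ℕ) (x : Fin k → ZMod 2) : ℕ := ∏ i ∈ km_S x, u i.castSucc

def km_D' (u : Fin (k + 1) → ℕ) (x : Fin k → ZMod 2) : ℕ := ∏ i ∈ univ \ km_S x, u i.castSucc

theorem km_DD (x : Fin k → ZMod 2) : km_D u x * km_D' u x = mm k u := by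
  unfold km_D km_D' mm
  rw [mul_comm]
  exact Finset.prod_sdiff (Finset.subset_univ _)

theorem km_Dpos (hp : ∀ i, (u i).Prime) (x : Fin k → ZMod 2) : 0 < km_D u x :=
  Finset.prod_pos fun i _ => (hp _).pos

theorem km_div (hp : ∀ i, (u i).Prime) (x : Fin k → ZMod 2) : mm k u / km_D u x = km_D' u x := by
  rw [← km_DD x, Nat.mul_div_cancel_left _ (km_Dpos hp x)]

theorem km_pD (hp : ∀ i, (u i).Prime) (hg : Good k u) (x : Fin k → ZMod 2) (l : Fin k) :
    u l.castSucc ∣ km_D u x ↔ x l = 1 := by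
  rw [← km_memS]
  constructor
  · intro h
    unfold km_D at h
    obtain ⟨i, hi, hd⟩ := (Prime.dvd_finsetProd_iff (hp l.castSucc).prime _).1 h
    have h1 := (Nat.prime_dvd_prime_iff_eq (hp _) (hp _)).1 hd
    rw [km_inj hg h1]
    exact hi
  · intro h
    exact Finset.dvd_prod_of_mem (fun i : Fin k => u i.castSucc) h

/-- a row of the matrix, `x_l = 0` -/
theorem km_row0 (hp : ∀ i, (u i).Prime) (hg : Good k u) (x : Fin k → ZMod 2) (l : Fin k) (hl : x l = 0) :
    (RM k u).mulVec x l = bit (km_D u x : ℤ) (u l.castSucc) := by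
  unfold km_D
  rw [km_bit_prod, Matrix.mulVec, dotProduct]
  · rw [← Finset.sum_subset (Finset.subset_univ (km_S x))]
    · refine Finset.sum_congr rfl fun i hi => ?_
      have hil : l ≠ i := by
        rintro rfl
        rw [km_memS, hl] at hi
        exact absurd hi (by decide)
      rw [km_memS.1 hi, mul_one, RM, if_neg hil]
    · intro i _ hi
      rw [km_notS.1 hi, mul_zero]
  · intro i hi
    apply km_copc hp hg
    rintro rfl
    rw [km_memS, hl] at hi
    exact absurd hi (by decide)

/-- a row of the matrix, `x_l = 1` -/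
theorem km_row1 (hp : ∀ i, (u i).Prime) (hg : Good k u) (x : Fin k → ZMod 2) (l : Fin k) (hl : x l = 1) :
    (RM k u).mulVec x l = bit ((km_D' u x * qq k u : ℕ) : ℤ) (u l.castSucc) := by
  have hlS : l ∈ km_S x := km_memS.2 hl
  have h1 : (RM k u).mulVec x l = RM k u l l + ∑ i ∈ (km_S x).erase l, bit (u i.castSucc) (u l.castSucc) := by
    rw [Matrix.mulVec, dotProduct, ← Finset.sum_subset (Finset.subset_univ (km_S x)),
      ← Finset.add_sum_erase _ _ hlS, hl, mul_one]
    · congr 1
      refine Finset.sum_congr rfl fun i hi => ?_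
      have hil : l ≠ i := (Finset.ne_of_mem_erase hi).symm
      rw [km_memS.1 (Finset.mem_of_mem_erase hi), mul_one, RM, if_neg hil]
    · intro i _ hi
      rw [km_notS.1 hi, mul_zero]
  have h2 : RM k u l l = ∑ j ∈ univ.erase l, bit (u j.castSucc) (u l.castSucc) +
      bit (qq k u) (u l.castSucc) := by
    rw [RM, if_pos rfl, Nat.cast_mul, km_bit_mul, km_bit_prod]
    · intro j hj
      exact km_copc hp hg (Finset.ne_of_mem_erase hj)
    · rw [Int.gcd_natCast_natCast]
      exact Nat.Coprime.prod_left fun j hj => km_copc hp hg (Finset.ne_of_mem_erase hj)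
    · rw [Int.gcd_natCast_natCast]
      exact km_copq hp hg l
  have h3 : bit ((km_D' u x * qq k u : ℕ) : ℤ) (u l.castSucc) =
      ∑ j ∈ univ \ km_S x, bit (u j.castSucc) (u l.castSucc) + bit (qq k u) (u l.castSucc) := by
    have hne : ∀ j ∈ univ \ km_S x, j ≠ l := by
      rintro j hj rfl
      exact (Finset.mem_sdiff.1 hj).2 hlS
    rw [Nat.cast_mul, km_bit_mul, km_D', km_bit_prod]
    · intro j hj
      exact km_copc hp hg (hne j hj)
    · rw [Int.gcd_natCast_natCast]
      exact Nat.Coprime.prod_left fun j hj => km_copc hp hg (hne j hj)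
    · rw [Int.gcd_natCast_natCast]
      exact km_copq hp hg l
  have h4 : (univ : Finset (Fin k)).erase l = (univ \ km_S x) ∪ (km_S x).erase l := by
    ext j
    simp only [mem_erase, mem_union, mem_sdiff, mem_univ, true_and, and_true]
    by_cases hj : j ∈ km_S x
    · simp [hj]
    · have : j ≠ l := by rintro rfl; exact hj hlS
      simp [hj, this]
  have h5 : Disjoint (univ \ km_S x) ((km_S x).erase l) := by
    rw [Finset.disjoint_left]
    intro j hj hj'
    exact (Finset.mem_sdiff.1 hj).2 (Finset.mem_of_mem_erase hj')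
  have h6 : ∀ t : ZMod 2, t + t = 0 := by decide
  rw [h1, h2, h3, h4, Finset.sum_union h5]
  set A := ∑ j ∈ univ \ km_S x, bit (u j.castSucc) (u l.castSucc)
  set B := ∑ i ∈ (km_S x).erase l, bit (u i.castSucc) (u l.castSucc)
  set Q := bit (qq k u) (u l.castSucc)
  have : A + B + Q + B = A + Q + (B + B) := by ring
  rw [this, h6, add_zero]

theorem km_mem (hp : ∀ i, (u i).Prime) (hg : Good k u) (x : Fin k → ZMod 2) :
    km_D u x ∈ K (mm k u) (qq k u) ↔ (RM k u).mulVec x = 0 := by
  classical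
  have hm0 : mm k u ≠ 0 := by
    rw [← km_DD x]
    exact Nat.mul_ne_zero (km_Dpos hp x).ne' (Finset.prod_pos fun i _ => (hp _).pos).ne'
  unfold K
  rw [mem_filter, Nat.mem_divisors]
  constructor
  · rintro ⟨-, h⟩
    ext l
    have h1 := h (u l.castSucc) (hp _) (Finset.dvd_prod_of_mem (fun i : Fin k => u i.castSucc) (mem_univ l))
    by_cases hl : x l = 1
    · rw [km_row1 hp hg x l hl, Pi.zero_apply, km_bit_zero, ← km_div hp x]
      exact h1.2 ((km_pD hp hg x l).2 hl)
    · have hl0 : x l = 0 := km_notS.1 (by rw [km_memS]; exact hl)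
      rw [km_row0 hp hg x l hl0, Pi.zero_apply, km_bit_zero]
      exact h1.1 (fun h' => hl ((km_pD hp hg x l).1 h'))
  · intro h
    refine ⟨⟨⟨km_D' u x, (km_DD x).symm⟩, hm0⟩, ?_⟩
    intro p hpp hd
    obtain ⟨l, rfl⟩ := km_dvd hp hg hpp hd
    have h1 := congrFun h l
    rw [Pi.zero_apply] at h1
    constructor
    · intro h2
      have hl0 : x l = 0 := km_notS.1 (by rw [km_memS]; exact fun h' => h2 ((km_pD hp hg x l).2 h'))
      rw [km_row0 hp hg x l hl0, km_bit_zero] at h1
      exact h1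
    · intro h2
      rw [km_row1 hp hg x l ((km_pD hp hg x l).1 h2), km_bit_zero, ← km_div hp x] at h1
      exact h1

theorem km_Dinj (hp : ∀ i, (u i).Prime) (hg : Good k u) : Function.Injective (km_D u) := by
  intro x y h
  ext l
  have h1 := km_pD hp hg x l
  have h2 := km_pD hp hg y l
  rw [h] at h1
  have h3 : x l = 1 ↔ y l = 1 := h1.symm.trans h2
  by_cases hx : x l = 1
  · rw [hx, h3.1 hx]
  · have hx0 : x l = 0 := km_notS.1 (by rw [km_memS]; exact hx)
    have hy0 : y l = 0 := km_notS.1 (by rw [km_memS]; exact fun h' => hx (h3.2 h'))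
    rw [hx0, hy0]

theorem km_Dsurj (hp : ∀ i, (u i).Prime) (hg : Good k u) {d : ℕ} (hd : d ∣ mm k u) :
    ∃ x, d = km_D u x := by
  classical
  have hsq : Squarefree (mm k u) := (km_sq hp hg).squarefree_of_dvd ⟨qq k u, km_prod.symm⟩
  refine ⟨fun i => if u i.castSucc ∣ d then 1 else 0, ?_⟩
  have h1 := Nat.prod_primeFactors_of_squarefree (hsq.squarefree_of_dvd hd)
  have h2 : d.primeFactors = (km_S (fun i : Fin k => if u i.castSucc ∣ d then (1 : ZMod 2) else 0)).image
      (fun i => u i.castSucc) := by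
    ext p
    rw [Nat.mem_primeFactors, Finset.mem_image]
    constructor
    · rintro ⟨hpp, hpd, -⟩
      obtain ⟨i, rfl⟩ := km_dvd hp hg hpp (hpd.trans hd)
      exact ⟨i, by rw [km_memS, if_pos hpd], rfl⟩
    · rintro ⟨i, hi, rfl⟩
      rw [km_memS] at hi
      refine ⟨hp _, ?_, ?_⟩
      · by_contra h
        rw [if_neg h] at hi
        exact absurd hi (by decide)
      · rintro rfl
        exact hsq.ne_zero (Nat.eq_zero_of_zero_dvd hd)
  refine h1.symm.trans ?_
  rw [h2, Finset.prod_image]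
  · rfl
  · intro i _ j _ h
    exact km_inj hg h

end

theorem km (k : ℕ) (u : Fin (k + 1) → ℕ) (hp : ∀ i, (u i).Prime) (hg : Good k u) :
    (RM k u).transpose = RM k u ∧ (K (mm k u) (qq k u)).card = kc (RM k u) ∧
    (K (mm k u) (qq k u) = {1} ↔ kc (RM k u) = 1) := by
  classical
  have hcard : (K (mm k u) (qq k u)).card = kc (RM k u) := by
    unfold kc
    symm
    refine Finset.card_bij (fun x _ => km_D u x) ?_ ?_ ?_
    · intro x hx
      rw [km_mem hp hg]
      exact (mem_filter.1 hx).2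
    · intro x _ y _ h
      exact km_Dinj hp hg h
    · intro d hd
      have hdm : d ∣ mm k u := by
        unfold K at hd
        exact Nat.dvd_of_mem_divisors (mem_filter.1 hd).1
      obtain ⟨x, rfl⟩ := km_Dsurj hp hg hdm
      exact ⟨x, by rw [mem_filter]; exact ⟨mem_univ _, (km_mem hp hg x).1 hd⟩, rfl⟩
  refine ⟨?_, hcard, ?_⟩
  · ext l i
    rw [Matrix.transpose_apply]
    unfold RM
    by_cases h : l = i
    · subst h; rfl
    · rw [if_neg h, if_neg (Ne.symm h)]
      unfold bit
      have h4 := hg.2.1 i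
      have h5 : Odd (u l.castSucc) := by
        rw [Nat.odd_iff]
        have := hg.2.1 l
        omega
      rw [jacobiSym.quadratic_reciprocity_one_mod_four h4 h5]
  · rw [← hcard]
    have h1 : 1 ∈ K (mm k u) (qq k u) := by
      have h2 : km_D u (0 : Fin k → ZMod 2) = 1 := by
        unfold km_D
        have : km_S (0 : Fin k → ZMod 2) = ∅ := by
          ext i
          simp [km_S]
        rw [this, Finset.prod_empty]
      rw [← h2, km_mem hp hg, Matrix.mulVec_zero]
    constructor
    · intro h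
      rw [h, Finset.card_singleton]
    · intro h
      obtain ⟨d, hd⟩ := Finset.card_eq_one.1 h
      rw [hd, Finset.mem_singleton] at h1
      rw [hd, ← h1]

end Pool.Agent.AVM
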