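import Pool.Agent.Lib_helper66.AVM.QS
import Pool.Agent.Lib_helper51.AVM.KM
import Pool.Agent.Lib_helper51.GL.DM

/-! # Project AVM, block SGD: the next digit as a product of quartic characters -/

set_option autoImplicit false

namespace Pool.Agent.AVM

open Finset Pool.Agent.PQ Pool.Agent.GL

theorem sgd_eps {m q d : ℕ} (hd : d ≠ 1) (hK : K m q = {1, d}) :
    Eps m q ↔ ¬ (Even (nq m q d) ↔ d % 8 = 1) := by
  unfold Eps
  constructor
  · rintro ⟨d', hd', hK', h⟩
    rw [hK] at hK'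
    rw [pair_inj hd hK']
    exact h
  · intro h
    exact ⟨d, hd, hK, h⟩

theorem sgd_pair {s : Finset ℕ} (h1 : 1 ∈ s) (h2 : s.card = 2) : ∃ d, d ≠ 1 ∧ s = {1, d} := by
  obtain ⟨a, b, hab, rfl⟩ := Finset.card_eq_two.1 h2
  rw [Finset.mem_insert, Finset.mem_singleton] at h1
  rcases h1 with h | h
  · subst h
    exact ⟨b, hab.symm, rfl⟩
  · subst h
    exact ⟨a, hab, Finset.pair_comm _ _⟩

theorem sgd_one_mem {m q : ℕ} (hm : m ≠ 0) : 1 ∈ K m q := by
  classical
  unfold K
  rw [mem_filter, Nat.mem_divisors]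
  refine ⟨⟨one_dvd _, hm⟩, fun p hp _ => ⟨fun _ => ?_, fun h => ?_⟩⟩
  · simp
  · exact absurd (Nat.dvd_one.1 h) hp.one_lt.ne'

open Classical in
theorem sgd_sign {ι : Type} (s : Finset ι) (P : ι → Prop) :
    ∏ i ∈ s, (if P i then (1 : ℂ) else -1) = if Even (s.filter (fun i => ¬ P i)).card then 1 else -1 := by
  have h1 : ∏ i ∈ s, (if P i then (1 : ℂ) else -1) = (-1) ^ (s.filter (fun i => ¬ P i)).card := by
    rw [← Finset.prod_filter_mul_prod_filter_not s P]
    rw [Finset.prod_congr rfl (g := fun _ => (1 : ℂ)) (fun i hi => if_pos (mem_filter.1 hi).2),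
      Finset.prod_const_one, one_mul,
      Finset.prod_congr rfl (g := fun _ => (-1 : ℂ)) (fun i hi => if_neg (mem_filter.1 hi).2),
      Finset.prod_const]
  rw [h1]
  split_ifs with h
  · exact h.neg_one_pow
  · exact (Nat.not_even_iff_odd.1 h).neg_one_pow

theorem sgd_logic1 {a e t : Prop} (he : ¬ e) (h : a ↔ ¬ (e ↔ t)) : ¬ (a ↔ ¬ t) := by tauto

theorem sgd_logic2 {a e t : Prop} (he : ¬ e) (h : ¬ (a ↔ ¬ (e ↔ t))) : (a ↔ ¬ t) := by tauto

section
variable {k : ℕ}

/-- two good tuples with the same `p_i` and the same signs -/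
theorem sgd_same {u u' : Fin (k + 1) → ℕ} (hp : ∀ i, (u i).Prime) (hg : Good k u)
    (hp' : ∀ i, (u' i).Prime) (hg' : Good k u') (hv : vv k u = vv k u') (hb : bs k u = bs k u') :
    mm k u = mm k u' ∧ K (mm k u) (qq k u) = K (mm k u') (qq k u') ∧
      Nn (mm k u) (qq k u) = Nn (mm k u') (qq k u') := by
  have hm : mm k u = mm k u' := by
    unfold mm
    exact Finset.prod_congr rfl fun i _ => congrFun hv i
  have hf := (good_fam k u hp hg).1
  have hMM : MM (mm k u) := ⟨hf.1.squarefree_of_dvd (dvd_mul_right _ _), hf.2.2.2.2⟩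
  have hs : ∀ p : ℕ, p.Prime → p ∣ mm k u → jacobiSym (qq k u : ℤ) p = jacobiSym (qq k u' : ℤ) p := by
    intro p hpp hpd
    obtain ⟨i, rfl⟩ := km_dvd hp hg hpp hpd
    have h1 := congrFun hb i
    have h2 : u i.castSucc = u' i.castSucc := congrFun hv i
    unfold bs bit at h1
    rw [← h2] at h1
    have c1 : Int.gcd (qq k u : ℤ) (u i.castSucc) = 1 := by
      rw [Int.gcd_natCast_natCast]; exact km_copq hp hg i
    have c2 : Int.gcd (qq k u' : ℤ) (u i.castSucc) = 1 := by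
      rw [Int.gcd_natCast_natCast, h2]; exact km_copq hp' hg' i
    rcases jacobiSym.eq_one_or_neg_one c1 with h3 | h3 <;>
      rcases jacobiSym.eq_one_or_neg_one c2 with h4 | h4 <;> rw [h3, h4] at h1 ⊢ <;> simp at h1
  refine ⟨hm, ?_, ?_⟩
  · rw [← hm]
    rw [dkb (mm k u) hMM (qq k u) (fun p => jacobiSym (qq k u' : ℤ) p) hs,
      dkb (mm k u) hMM (qq k u') (fun p => jacobiSym (qq k u' : ℤ) p) (fun _ _ _ => rfl)]
  · rw [← hm]
    exact Nn_congr hMM (β := fun p => jacobiSym (qq k u' : ℤ) p) hs (fun _ _ _ => rfl)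

/-- the fibre of `(v, β)` has a kernel `{1, d}` -/
def SgP (v : Fin k → ℕ) (β : Fin k → ZMod 2) : Prop :=
  ∃ (u₀ : Fin (k + 1) → ℕ) (d : ℕ), (∀ i, (u₀ i).Prime) ∧ Good k u₀ ∧ vv k u₀ = v ∧ bs k u₀ = β ∧
    d ≠ 1 ∧ K (mm k u₀) (qq k u₀) = {1, d}

open Classical in
noncomputable def sgS (v : Fin k → ℕ) (β : Fin k → ZMod 2) : Finset (Fin k) :=
  if h : SgP v β then univ.filter (fun i => v i ∣ h.choose_spec.choose) else ∅

open Classical in
noncomputable def sgg (v : Fin k → ℕ) (β : Fin k → ZMod 2) : ℂ :=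
  if h : SgP v β then
    (if (Odd (Nn (mm k h.choose) (qq k h.choose)).card ↔ ¬ h.choose_spec.choose % 8 = 1) then 1 else -1) *
      ∏ i ∈ univ.filter (fun i => v i ∣ h.choose_spec.choose),
        qc (v i) (((∏ j, v j) / h.choose_spec.choose : ℕ) : ZMod (v i))
  else 0

theorem sgg_norm (v : Fin k → ℕ) (β : Fin k → ZMod 2) : ‖sgg v β‖ ≤ 1 := by
  unfold sgg
  split_ifs with h h1
  · rw [one_mul, norm_prod]
    exact Finset.prod_le_one (fun _ _ => norm_nonneg _) fun i _ => DirichletCharacter.norm_le_one _ _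
  · rw [norm_mul, norm_neg, norm_one, one_mul, norm_prod]
    exact Finset.prod_le_one (fun _ _ => norm_nonneg _) fun i _ => DirichletCharacter.norm_le_one _ _
  · simp

theorem sgS_ne (v : Fin k → ℕ) (β : Fin k → ZMod 2) (hg : sgg v β ≠ 0) : (sgS v β).Nonempty := by
  classical
  have h : SgP v β := by
    by_contra h
    apply hg
    unfold sgg
    rw [dif_neg h]
  unfold sgS
  rw [dif_pos h]
  obtain ⟨hp, hG, hv, hb, hd, hK⟩ := h.choose_spec.choose_spec
  set u₀ := h.choose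
  set d := h.choose_spec.choose
  have hdm : d ∣ mm k u₀ := by
    have h1 : d ∈ K (mm k u₀) (qq k u₀) := by rw [hK]; simp
    unfold K at h1
    exact Nat.dvd_of_mem_divisors (mem_filter.1 h1).1
  obtain ⟨p, hpp, hpd⟩ := Nat.exists_prime_and_dvd hd
  obtain ⟨i, hi⟩ := km_dvd hp hG hpp (hpd.trans hdm)
  refine ⟨i, ?_⟩
  rw [mem_filter]
  refine ⟨mem_univ _, ?_⟩
  rw [← hv]
  show u₀ i.castSucc ∣ d
  rw [← hi]
  exact hpd

end

open Classical in
theorem sgd (k : ℕ) : ∃ (g : (Fin k → ℕ) → (Fin k → ZMod 2) → ℂ)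
    (S : (Fin k → ℕ) → (Fin k → ZMod 2) → Finset (Fin k)),
    (∀ v β, ‖g v β‖ ≤ 1) ∧ (∀ v β, g v β ≠ 0 → (S v β).Nonempty) ∧
    ∀ u : Fin (k + 1) → ℕ, (∀ i, (u i).Prime) → Good k u →
      (if kc (RM k u) = 2 then (if (2 : ℤ) ^ (k + 4) ∣ c (∏ i, u i) then 1 else -1) else 0) =
      g (vv k u) (bs k u) * ∏ i ∈ S (vv k u) (bs k u), qc (u i.castSucc) (qq k u : ZMod (u i.castSucc)) := by
  refine ⟨sgg, sgS, sgg_norm, sgS_ne, ?_⟩
  intro u hp hG
  obtain ⟨hf, hwm, hwn, hprod⟩ := good_fam k u hp hG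
  obtain ⟨-, hKc, -⟩ := km k u hp hG
  have hm0 : mm k u ≠ 0 := by
    intro h
    rw [h, zero_mul] at hprod
    exact (Finset.prod_pos fun i _ => (hp i).pos).ne hprod
  by_cases hkc : kc (RM k u) = 2
  · rw [if_pos hkc]
    rw [hkc] at hKc
    have hP : SgP (vv k u) (bs k u) := by
      obtain ⟨d, hd, hK⟩ := sgd_pair (sgd_one_mem hm0) hKc
      exact ⟨u, d, hp, hG, rfl, rfl, hd, hK⟩
    unfold sgg sgS
    rw [dif_pos hP, dif_pos hP]
    obtain ⟨hp₀, hG₀, hv₀, hb₀, hd, hK₀⟩ := hP.choose_spec.choose_spec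
    set u₀ := hP.choose
    set d := hP.choose_spec.choose
    obtain ⟨e1, e2, e3⟩ := sgd_same hp hG hp₀ hG₀ hv₀.symm hb₀.symm
    rw [← e2] at hK₀
    rw [← e3]
    have hK1 : K (mm k u) (qq k u) ≠ {1} := by
      intro h
      rw [h, Finset.card_singleton] at hKc
      omega
    have hcl := (cl (mm k u) (qq k u) hf).2.2 hK1
    rw [hwn, hprod, sgd_eps hd hK₀] at hcl
    have e4 : k + 1 + 3 = k + 4 := by ring
    rw [e4] at hcl
    have hdK : d ∈ K (mm k u) (qq k u) := by rw [hK₀]; simp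
    have hdm : d ∣ mm k u := by
      unfold K at hdK
      exact Nat.dvd_of_mem_divisors (mem_filter.1 hdK).1
    have hjac : ∀ i : Fin k, u i.castSucc ∣ d →
        jacobiSym ((mm k u / d * qq k u : ℕ) : ℤ) (u i.castSucc) = 1 := by
      intro i hi
      unfold K at hdK
      exact ((mem_filter.1 hdK).2 _ (hp _) (hi.trans hdm)).2 hi
    -- the quartic product
    have hq : ∏ i ∈ univ.filter (fun i : Fin k => u i.castSucc ∣ d),
        qc (u i.castSucc) ((mm k u / d * qq k u : ℕ) : ZMod (u i.castSucc)) =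
        if Even (nq (mm k u) (qq k u) d) then 1 else -1 := by
      have h1 : ∏ i ∈ univ.filter (fun i : Fin k => u i.castSucc ∣ d),
          qc (u i.castSucc) ((mm k u / d * qq k u : ℕ) : ZMod (u i.castSucc)) =
          ∏ i ∈ univ.filter (fun i : Fin k => u i.castSucc ∣ d),
            (if Pow4 (mm k u / d * qq k u) (u i.castSucc) then (1 : ℂ) else -1) := by
        refine Finset.prod_congr rfl fun i hi => ?_
        have h2 := qc_four (u i.castSucc) (hp _) (hG.2.1 i) (mm k u / d * qq k u)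
          (hjac i (mem_filter.1 hi).2)
        split_ifs with h3
        · exact h2.1 h3
        · exact h2.2 h3
      rw [h1, sgd_sign]
      have h4 : ((univ.filter (fun i : Fin k => u i.castSucc ∣ d)).filter
          (fun i => ¬ Pow4 (mm k u / d * qq k u) (u i.castSucc))).card = nq (mm k u) (qq k u) d := by
        unfold nq
        refine Finset.card_bij (fun i _ => u i.castSucc) ?_ ?_ ?_
        · intro i hi
          simp only [mem_filter, mem_univ, true_and] at hi
          rw [mem_filter, Nat.mem_primeFactors]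
          refine ⟨⟨hp _, hi.1, ?_⟩, hi.2⟩
          rintro h5
          rw [h5] at hdm
          exact hm0 (Nat.eq_zero_of_zero_dvd hdm)
        · intro i _ j _ h
          exact km_inj hG h
        · intro p hpp
          rw [mem_filter, Nat.mem_primeFactors] at hpp
          obtain ⟨i, rfl⟩ := km_dvd hp hG hpp.1.1 (hpp.1.2.1.trans hdm)
          exact ⟨i, by simp only [mem_filter, mem_univ, true_and]; exact ⟨hpp.1.2.1, hpp.2⟩, rfl⟩
      rw [h4]
    have hsplit : ∏ i ∈ univ.filter (fun i : Fin k => u i.castSucc ∣ d),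
        qc (u i.castSucc) ((mm k u / d * qq k u : ℕ) : ZMod (u i.castSucc)) =
        (∏ i ∈ univ.filter (fun i : Fin k => u i.castSucc ∣ d),
          qc (u i.castSucc) ((mm k u / d : ℕ) : ZMod (u i.castSucc))) *
        ∏ i ∈ univ.filter (fun i : Fin k => u i.castSucc ∣ d),
          qc (u i.castSucc) (qq k u : ZMod (u i.castSucc)) := by
      rw [← Finset.prod_mul_distrib]
      refine Finset.prod_congr rfl fun i _ => ?_
      rw [Nat.cast_mul, map_mul]
    rw [hsplit] at hq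
    have hg1 : (∏ i ∈ univ.filter (fun i : Fin k => vv k u i ∣ d),
        qc (vv k u i) (((∏ j, vv k u j) / d : ℕ) : ZMod (vv k u i))) =
        ∏ i ∈ univ.filter (fun i : Fin k => u i.castSucc ∣ d),
          qc (u i.castSucc) ((mm k u / d : ℕ) : ZMod (u i.castSucc)) := rfl
    have hg2 : (∏ i ∈ univ.filter (fun i : Fin k => vv k u i ∣ d),
        qc (u i.castSucc) (qq k u : ZMod (u i.castSucc))) =
        ∏ i ∈ univ.filter (fun i : Fin k => u i.castSucc ∣ d),
          qc (u i.castSucc) (qq k u : ZMod (u i.castSucc)) := rfl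
    rw [hg1, hg2, mul_assoc, hq]
    by_cases hE : Even (nq (mm k u) (qq k u) d)
    · rw [if_pos hE, mul_one]
      simp only [hE, true_iff] at hcl
      by_cases hc : (2 : ℤ) ^ (k + 4) ∣ c (∏ i, u i)
      · rw [if_pos hc, if_pos (hcl.1 hc)]
      · rw [if_neg hc, if_neg (fun h => hc (hcl.2 h))]
    · rw [if_neg hE]
      by_cases hc : (2 : ℤ) ^ (k + 4) ∣ c (∏ i, u i)
      · have h1 := hcl.1 hc
        rw [if_pos hc, if_neg (sgd_logic1 hE h1)]
        ring
      · have h1 : ¬ (Odd (Nn (mm k u) (qq k u)).card ↔ ¬ (Even (nq (mm k u) (qq k u) d) ↔ d % 8 = 1)) :=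
          fun h => hc (hcl.2 h)
        rw [if_neg hc, if_pos (sgd_logic2 hE h1)]
        ring
  · rw [if_neg hkc]
    have hP : ¬ SgP (vv k u) (bs k u) := by
      rintro ⟨u₀, d, hp₀, hG₀, hv₀, hb₀, hd, hK₀⟩
      obtain ⟨e1, e2, e3⟩ := sgd_same hp hG hp₀ hG₀ hv₀.symm hb₀.symm
      rw [← e2] at hK₀
      apply hkc
      rw [← hKc, hK₀, Finset.card_pair hd.symm]
    unfold sgg
    rw [dif_neg hP, zero_mul]

end Pool.Agent.AVM
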